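import Mathlib
import Pool.Agent.Helper74.LM.Rel

namespace Pool.Agent.Helper74.Kept.RelativeTame

open Matrix Pool.Agent.Helper74.LM

/-- Let `A` be a domain and `g` a matrix in the subgroup of `SL_2(A[X])` generated by `SL_2(A)` and
`E_2(A[X])`. Then `g` lies in `E_2(A[X, X⁻¹])` if and only if it lies in `E_2(A[X])`. -/
theorem result {A : Type*} [CommRing A] [IsDomain A]
    (g : SpecialLinearGroup (Fin 2) (Polynomial A))
    (hg : g ∈ (SpecialLinearGroup.map (n := Fin 2) (Polynomial.C : A →+* Polynomial A)).range ⊔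
      E2 (Polynomial A)) :
    SpecialLinearGroup.map (Polynomial.toLaurent : Polynomial A →+* LaurentPolynomial A) g ∈
      E2 (LaurentPolynomial A) ↔ g ∈ E2 (Polynomial A) :=
  ⟨relative hg, map_E2 _⟩

end Pool.Agent.Helper74.Kept.RelativeTame
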